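import Mathlib

/-! Locally contracting maps with relatively compact image: the attractor. -/

namespace Pool.Agent.R571.LFS

open Filter Topology Metric

variable {M : Type*} [MetricSpace M] {f : M → M} {B : Set M}

/-- closures of the iterated images -/
def Dset (f : M → M) (B : Set M) (n : ℕ) : Set M := closure (f^[n + 1] '' B)

/-- the attractor -/
def Kset (f : M → M) (B : Set M) : Set M := ⋂ n, Dset f B n

lemma Dset_succ (hB : Set.MapsTo f B B) (n : ℕ) : Dset f B (n + 1) ⊆ Dset f B n := by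
  apply closure_mono
  rintro _ ⟨x, hx, rfl⟩
  exact ⟨f x, hB hx, by rw [Function.iterate_succ_apply f (n + 1) x]⟩

lemma Dset_anti (hB : Set.MapsTo f B B) : Antitone (Dset f B) :=
  antitone_nat_of_succ_le (Dset_succ hB)

lemma Dset_compact (hB : Set.MapsTo f B B) (hc : IsCompact (closure (f '' B))) (n : ℕ) :
    IsCompact (Dset f B n) := by
  have h0 : Dset f B 0 = closure (f '' B) := by simp [Dset]
  refine (h0 ▸ hc : IsCompact (Dset f B 0)).of_isClosed_subset isClosed_closure ?_
  exact Dset_anti hB (Nat.zero_le n)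

lemma Kset_maps (hf : Continuous f) (hB : Set.MapsTo f B B) :
    Set.MapsTo f (Kset f B) (Kset f B) := by
  intro x hx
  rw [Kset, Set.mem_iInter] at hx ⊢
  intro n
  apply Dset_succ hB
  have h1 := image_closure_subset_closure_image hf (s := f^[n + 1] '' B) ⟨x, hx n, rfl⟩
  rw [Set.image_image] at h1
  have h2 : (fun x => f (f^[n + 1] x)) = f^[n + 1 + 1] := by
    funext y
    rw [Function.iterate_succ_apply' f (n + 1) y]
  rw [h2] at h1
  exact h1

lemma Kset_surj (hf : Continuous f) (hB : Set.MapsTo f B B)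
    (hc : IsCompact (closure (f '' B))) {k : M} (hk : k ∈ Kset f B) :
    ∃ k' ∈ Kset f B, f k' = k := by
  have hne : (⋂ n, (Dset f B n ∩ f ⁻¹' {k})).Nonempty := by
    apply IsCompact.nonempty_iInter_of_sequence_nonempty_isCompact_isClosed
    · intro n
      exact Set.inter_subset_inter_left _ (Dset_succ hB n)
    · intro n
      have h1 : f '' Dset f B n ⊇ Dset f B (n + 1) := by
        apply closure_minimal _ ((Dset_compact hB hc n).image hf).isClosed
        rintro _ ⟨x, hx, rfl⟩
        refine ⟨f^[n + 1] x, subset_closure ⟨x, hx, rfl⟩, ?_⟩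
        rw [Function.iterate_succ_apply' f (n + 1) x]
      rw [Kset, Set.mem_iInter] at hk
      obtain ⟨y, hy, hyk⟩ := h1 (hk (n + 1))
      exact ⟨y, hy, hyk⟩
    · exact (Dset_compact hB hc 0).inter_right (isClosed_singleton.preimage hf)
    · intro n
      exact isClosed_closure.inter (isClosed_singleton.preimage hf)
  obtain ⟨k', hk'⟩ := hne
  rw [Set.mem_iInter] at hk'
  exact ⟨k', Set.mem_iInter.2 fun n => (hk' n).1, (hk' 0).2⟩

lemma Kset_surj_iter (hf : Continuous f) (hB : Set.MapsTo f B B)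
    (hc : IsCompact (closure (f '' B))) (n : ℕ) {k : M} (hk : k ∈ Kset f B) :
    ∃ k' ∈ Kset f B, f^[n] k' = k := by
  induction n generalizing k with
  | zero => exact ⟨k, hk, rfl⟩
  | succ n ih =>
    obtain ⟨k1, hk1, rfl⟩ := ih hk
    obtain ⟨k2, hk2, rfl⟩ := Kset_surj hf hB hc hk1
    exact ⟨k2, hk2, by rw [Function.iterate_succ_apply]⟩

lemma contr_iter {s c : ℝ} (hc0 : 0 ≤ c) (hc1 : c ≤ 1)
    (hs : ∀ x y, dist x y < s → dist (f x) (f y) ≤ c * dist x y) (n : ℕ) {x y : M}
    (hxy : dist x y < s) : dist (f^[n] x) (f^[n] y) ≤ c ^ n * dist x y := by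
  induction n with
  | zero => simp
  | succ n ih =>
    rw [Function.iterate_succ_apply', Function.iterate_succ_apply', pow_succ]
    have h1 : c ^ n ≤ 1 := pow_le_one₀ hc0 hc1
    have h2 : 0 ≤ dist x y := dist_nonneg
    have h3 : dist (f^[n] x) (f^[n] y) < s := by nlinarith
    have h4 := hs _ _ h3
    nlinarith

lemma Kset_finite (hf : Continuous f) (hB : Set.MapsTo f B B)
    (hcomp : IsCompact (closure (f '' B))) {s c : ℝ} (hs0 : 0 < s) (hc0 : 0 ≤ c) (hc1 : c < 1)
    (hs : ∀ x y, dist x y < s → dist (f x) (f y) ≤ c * dist x y) : (Kset f B).Finite := by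
  classical
  by_contra hinf
  have hKc : IsCompact (Kset f B) :=
    (Dset_compact hB hcomp 0).of_isClosed_subset (isClosed_iInter fun n => isClosed_closure)
      (Set.iInter_subset _ 0)
  obtain ⟨t, -, htf, htc⟩ := hKc.finite_cover_balls (e := s / 2) (by linarith)
  obtain ⟨S, hSK, hScard⟩ := Set.Infinite.exists_subset_card_eq hinf (htf.toFinset.card + 1)
  have hpow : Tendsto (fun n : ℕ => c ^ n * s) atTop (𝓝 (0 * s)) :=
    (tendsto_pow_atTop_nhds_zero_of_lt_one hc0 hc1).mul_const s
  rw [zero_mul] at hpow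
  have hev : ∀ᶠ n : ℕ in atTop, ∀ a ∈ S, ∀ b ∈ S, a ≠ b → c ^ n * s < dist a b := by
    rw [Filter.eventually_all_finset]
    intro a _
    rw [Filter.eventually_all_finset]
    intro b _
    by_cases hab : a = b
    · exact Eventually.of_forall fun _ h => absurd hab h
    · filter_upwards [hpow.eventually_lt_const (dist_pos.2 hab)] with n hn _
      exact hn
  obtain ⟨n, hn⟩ := hev.exists
  have hpre : ∀ a : M, ∃ a' ∈ t, a ∈ S → ∃ a'' , f^[n] a'' = a ∧ dist a'' a' < s / 2 := by
    intro a
    by_cases ha : a ∈ S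
    · obtain ⟨a'', ha'', h1⟩ := Kset_surj_iter hf hB hcomp n (hSK ha)
      obtain ⟨a', ha', h2⟩ := Set.mem_iUnion₂.1 (htc ha'')
      exact ⟨a', ha', fun _ => ⟨a'', h1, h2⟩⟩
    · have hne : t.Nonempty := by
        obtain ⟨a0, ha0⟩ : S.Nonempty := by
          rw [← Finset.card_pos, hScard]
          omega
        obtain ⟨a', ha', -⟩ := Set.mem_iUnion₂.1 (htc (hSK ha0))
        exact ⟨a', ha'⟩
      obtain ⟨a', ha'⟩ := hne
      exact ⟨a', ha', fun h => absurd h ha⟩
  choose F hF1 hF2 using hpre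
  obtain ⟨a, ha, b, hb, hab, hFab⟩ := Finset.exists_ne_map_eq_of_card_lt_of_maps_to
    (s := S) (t := htf.toFinset) (f := F) (by rw [hScard]; omega)
    (fun a _ => by simpa using hF1 a)
  obtain ⟨a', ha', ha2⟩ := hF2 a ha
  obtain ⟨b', hb', hb2⟩ := hF2 b hb
  rw [hFab] at ha2
  have h1 : dist a' b' < s := by
    have := dist_triangle_right a' b' (F b)
    linarith
  have h2 := contr_iter hc0 hc1.le hs n h1
  rw [ha', hb'] at h2
  have h3 := hn a ha b hb hab
  have h4 : c ^ n * dist a' b' ≤ c ^ n * s :=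
    mul_le_mul_of_nonneg_left h1.le (by positivity)
  linarith

lemma Kset_attract (hB : Set.MapsTo f B B)
    (hcomp : IsCompact (closure (f '' B))) {s : ℝ} (hs : 0 < s) :
    ∃ n, ∀ x ∈ B, ∃ k ∈ Kset f B, dist (f^[n + 1] x) k < s := by
  obtain ⟨n, hn⟩ := exists_subset_nhds_of_isCompact (V := Dset f B)
    (Dset_anti hB).directed_ge (Dset_compact hB hcomp) (U := thickening s (Kset f B)) (by
      intro x hx
      exact isOpen_thickening.mem_nhds (self_subset_thickening hs _ hx))
  refine ⟨n, fun x hx => ?_⟩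
  have h1 := hn (subset_closure ⟨x, hx, rfl⟩)
  exact mem_thickening_iff.1 h1

lemma Kset_of_periodic {x : M} (hx : ∀ j, f^[j] x ∈ B) {p : ℕ} (hp : 0 < p)
    (hper : f^[p] x = x) : x ∈ Kset f B := by
  rw [Kset, Set.mem_iInter]
  intro n
  apply subset_closure
  refine ⟨f^[p * (n + 1) - (n + 1)] x, hx _, ?_⟩
  rw [← Function.iterate_add_apply]
  have h1 : n + 1 + (p * (n + 1) - (n + 1)) = p * (n + 1) := by
    have : n + 1 ≤ p * (n + 1) := Nat.le_mul_of_pos_left _ hp
    omega
  rw [h1]
  have h2 : Function.IsPeriodicPt f (p * (n + 1)) x :=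
    Function.IsPeriodicPt.mul_const (show Function.IsPeriodicPt f p x from hper) (n + 1)
  exact h2

lemma Kset_inj (hf : Continuous f) (hB : Set.MapsTo f B B)
    (hcomp : IsCompact (closure (f '' B))) (hfin : (Kset f B).Finite) :
    Set.InjOn f (Kset f B) := by
  have : Finite (Kset f B) := hfin
  have hsurj : Function.Surjective ((Kset_maps hf hB).restrict f (Kset f B) (Kset f B)) := by
    rintro ⟨k, hk⟩
    obtain ⟨k', hk', h⟩ := Kset_surj hf hB hcomp hk
    exact ⟨⟨k', hk'⟩, Subtype.ext h⟩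
  have hinj := Finite.injective_iff_surjective.2 hsurj
  exact (Set.MapsTo.restrict_inj _).1 hinj

lemma Kset_periodic (hf : Continuous f) (hB : Set.MapsTo f B B)
    (hcomp : IsCompact (closure (f '' B))) (hfin : (Kset f B).Finite) {k : M}
    (hk : k ∈ Kset f B) : ∃ n, 0 < n ∧ f^[n] k = k := by
  have : Finite (Kset f B) := hfin
  have hinj : Function.Injective ((Kset_maps hf hB).restrict f (Kset f B) (Kset f B)) :=
    (Set.MapsTo.restrict_inj _).2 (Kset_inj hf hB hcomp hfin)
  obtain ⟨n, hn, hper⟩ := hinj.mem_periodicPts ⟨k, hk⟩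
  refine ⟨n, hn, ?_⟩
  have h1 := congrArg Subtype.val (show _ = _ from hper)
  have h2 : ∀ m, (((Kset_maps hf hB).restrict f (Kset f B) (Kset f B))^[m] ⟨k, hk⟩).1 =
      f^[m] k := by
    intro m
    induction m with
    | zero => rfl
    | succ m ih =>
      rw [Function.iterate_succ_apply', Function.iterate_succ_apply', Set.MapsTo.val_restrict_apply,
        ih]
  rw [h2] at h1
  exact h1

end Pool.Agent.R571.LFS
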