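import Pool.Agent.R571.LFS.Main

/-! The complex Lipschitz-free space, defined as the closed span of the evaluations in the dual
of `Lip₀(M)`. -/

noncomputable section

namespace Pool.Agent.R571.LFS

open Set

universe u

/-- The vector space of the complex Lipschitz functions on `M` which vanish at `o`. -/
def lipSub (M : Type u) [MetricSpace M] (o : M) : Submodule ℂ (M → ℂ) where
  carrier := {f | f o = 0 ∧ ∃ K : ℝ, 0 ≤ K ∧ ∀ x y, ‖f x - f y‖ ≤ K * dist x y}
  zero_mem' := ⟨rfl, 0, le_rfl, fun x y => by simp⟩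
  add_mem' := by
    rintro f g ⟨hf, K, hK, hfK⟩ ⟨hg, L, hL, hgL⟩
    refine ⟨by simp [hf, hg], K + L, by positivity, fun x y => ?_⟩
    have : (f + g) x - (f + g) y = (f x - f y) + (g x - g y) := by
      simp only [Pi.add_apply]; ring
    rw [this]
    calc _ ≤ ‖f x - f y‖ + ‖g x - g y‖ := norm_add_le _ _
      _ ≤ _ := by rw [add_mul]; exact add_le_add (hfK x y) (hgL x y)
  smul_mem' := by
    rintro c f ⟨hf, K, hK, hfK⟩
    refine ⟨by simp [hf], ‖c‖ * K, by positivity, fun x y => ?_⟩
    have : (c • f) x - (c • f) y = c * (f x - f y) := by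
      simp only [Pi.smul_apply, smul_eq_mul]; ring
    rw [this, norm_mul, mul_assoc]
    exact mul_le_mul_of_nonneg_left (hfK x y) (norm_nonneg _)

/-- `Lip0 M o`: the space of the complex Lipschitz functions on `M` vanishing at `o`, normed by
the least Lipschitz constant. -/
def Lip0 (M : Type u) [MetricSpace M] (o : M) : Type u := ↥(lipSub M o)

variable {M : Type u} [MetricSpace M] {o : M}

/-- The underlying function. -/
def Lip0.fn (f : Lip0 M o) : M → ℂ := f.1

section raw

/-- pointwise addition -/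
local instance lipACG : AddCommGroup (Lip0 M o) := Submodule.addCommGroup (lipSub M o)
/-- pointwise scalar multiplication -/
local instance lipMod : Module ℂ (Lip0 M o) := Submodule.module (lipSub M o)

/-- The norm: the least Lipschitz constant. -/
instance : Norm (Lip0 M o) :=
  ⟨fun f => sInf {K : ℝ | 0 ≤ K ∧ ∀ x y, ‖f.fn x - f.fn y‖ ≤ K * dist x y}⟩

theorem Lip0.ext {f g : Lip0 M o} (h : ∀ x, f.fn x = g.fn x) : f = g :=
  Subtype.ext (funext h)

theorem Lip0.set_nonempty (f : Lip0 M o) :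
    {K : ℝ | 0 ≤ K ∧ ∀ x y, ‖f.fn x - f.fn y‖ ≤ K * dist x y}.Nonempty := by
  obtain ⟨K, hK, h⟩ := f.2.2
  exact ⟨K, hK, h⟩

theorem Lip0.norm_le' (f : Lip0 M o) {K : ℝ} (hK : 0 ≤ K)
    (h : ∀ x y, ‖f.fn x - f.fn y‖ ≤ K * dist x y) : ‖f‖ ≤ K :=
  csInf_le ⟨0, fun _ h => h.1⟩ ⟨hK, h⟩

theorem Lip0.norm_nonneg' (f : Lip0 M o) : 0 ≤ ‖f‖ :=
  le_csInf f.set_nonempty fun _ h => h.1

theorem Lip0.norm_sub_le' (f : Lip0 M o) (x y : M) : ‖f.fn x - f.fn y‖ ≤ ‖f‖ * dist x y := by
  rcases eq_or_ne x y with rfl | hxy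
  · simp
  · have hd : 0 < dist x y := dist_pos.2 hxy
    rw [← div_le_iff₀ hd]
    refine le_csInf f.set_nonempty ?_
    rintro K ⟨_, hK⟩
    rw [div_le_iff₀ hd]
    exact hK x y

theorem Lip0.fn_base (f : Lip0 M o) : f.fn o = 0 := f.2.1

theorem Lip0.core : NormedSpace.Core ℂ (Lip0 M o) where
  norm_nonneg f := f.norm_nonneg'
  norm_smul c f := by
    have hs : ∀ x, (c • f).fn x = c * f.fn x := fun _ => rfl
    apply le_antisymm
    · refine Lip0.norm_le' _ (mul_nonneg (norm_nonneg _) f.norm_nonneg') fun x y => ?_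
      have : (c • f).fn x - (c • f).fn y = c * (f.fn x - f.fn y) := by
        simp only [hs]; ring
      rw [this, norm_mul, mul_assoc]
      exact mul_le_mul_of_nonneg_left (f.norm_sub_le' x y) (norm_nonneg _)
    · rcases eq_or_ne c 0 with rfl | hc
      · simp only [norm_zero, zero_mul]; exact Lip0.norm_nonneg' _
      · have hc' : 0 < ‖c‖ := norm_pos_iff.2 hc
        rw [← le_div_iff₀' hc']
        refine Lip0.norm_le' _ (div_nonneg (Lip0.norm_nonneg' _) hc'.le) fun x y => ?_
        have h1 := (c • f).norm_sub_le' x y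
        have : (c • f).fn x - (c • f).fn y = c * (f.fn x - f.fn y) := by
          simp only [hs]; ring
        rw [this, norm_mul] at h1
        rw [div_mul_eq_mul_div, le_div_iff₀ hc']
        rw [mul_comm]
        exact h1
  norm_triangle f g := by
    refine Lip0.norm_le' _ (add_nonneg f.norm_nonneg' g.norm_nonneg') fun x y => ?_
    have hs : ∀ x, (f + g).fn x = f.fn x + g.fn x := fun _ => rfl
    have : (f + g).fn x - (f + g).fn y = (f.fn x - f.fn y) + (g.fn x - g.fn y) := by
      simp only [hs]; ring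
    rw [this]
    calc _ ≤ ‖f.fn x - f.fn y‖ + ‖g.fn x - g.fn y‖ := norm_add_le _ _
      _ ≤ _ := by rw [add_mul]; exact add_le_add (f.norm_sub_le' x y) (g.norm_sub_le' x y)
  norm_eq_zero_iff f := by
    constructor
    · intro h
      apply Lip0.ext
      intro x
      have h1 := f.norm_sub_le' x o
      rw [h, zero_mul, Lip0.fn_base, sub_zero] at h1
      exact norm_le_zero_iff.1 h1
    · rintro rfl
      apply le_antisymm _ (Lip0.norm_nonneg' _)
      have hs : ∀ x, (0 : Lip0 M o).fn x = 0 := fun _ => rfl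
      refine Lip0.norm_le' _ le_rfl fun x y => by simp [hs]

instance : NormedAddCommGroup (Lip0 M o) := NormedAddCommGroup.ofCore (Lip0.core (M := M) (o := o))
instance : NormedSpace ℂ (Lip0 M o) := NormedSpace.ofCore (Lip0.core (M := M) (o := o))

end raw

/-- The evaluation functional `f ↦ f x` on `Lip0 M o`. -/
def evalAt (M : Type u) [MetricSpace M] (o : M) (x : M) : StrongDual ℂ (Lip0 M o) :=
  LinearMap.mkContinuous
    { toFun := fun f => f.fn x
      map_add' := fun _ _ => rfl
      map_smul' := fun _ _ => rfl } (dist x o) (fun f => by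
        have := f.norm_sub_le' x o
        rw [Lip0.fn_base, sub_zero, mul_comm] at this
        exact this)

/-- The Lipschitz-free space of `M`, as a subspace of the dual of `Lip0 M o`: the closed linear
span of the evaluations. -/
def freeSub (M : Type u) [MetricSpace M] (o : M) : Submodule ℂ (StrongDual ℂ (Lip0 M o)) :=
  (Submodule.span ℂ (Set.range (evalAt M o))).topologicalClosure

/-- The Lipschitz-free space of `M`. -/
def Free (M : Type u) [MetricSpace M] (o : M) : Type u := ↥(freeSub M o)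

/-- the norm of the dual space, restricted -/
instance freeGroup (M : Type u) [MetricSpace M] (o : M) : NormedAddCommGroup (Free M o) :=
  Submodule.normedAddCommGroup (freeSub M o)
/-- scalar multiplication -/
instance freeSpace (M : Type u) [MetricSpace M] (o : M) : NormedSpace ℂ (Free M o) :=
  Submodule.normedSpace (freeSub M o)

/-- The element `δ(x)` of the Lipschitz-free space. -/
def delta (M : Type u) [MetricSpace M] (o : M) (x : M) : Free M o :=
  ⟨evalAt M o x, Submodule.le_topologicalClosure _ (Submodule.subset_span ⟨x, rfl⟩)⟩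

instance : CompleteSpace (Free M o) :=
  (Submodule.isClosed_topologicalClosure
    (Submodule.span ℂ (Set.range (evalAt M o)))).completeSpace_coe

/-- the inclusion -/
def incl (M : Type u) [MetricSpace M] (o : M) : Free M o →L[ℂ] StrongDual ℂ (Lip0 M o) :=
  (freeSub M o).subtypeL

/-- constructor -/
def Lip0.mk (f : M → ℂ) (h0 : f o = 0) (K : ℝ) (hK : 0 ≤ K)
    (h : ∀ x y, ‖f x - f y‖ ≤ K * dist x y) : Lip0 M o := ⟨f, h0, K, hK, h⟩

lemma evalAt_apply (x : M) (g : Lip0 M o) : evalAt M o x g = g.fn x := rfl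

lemma evalAt_base : evalAt M o o = 0 := by
  ext g
  exact g.fn_base

lemma norm_evalAt_sub (x y : M) : ‖evalAt M o x - evalAt M o y‖ = dist x y := by
  apply le_antisymm
  · apply ContinuousLinearMap.opNorm_le_bound _ dist_nonneg
    intro g
    have := g.norm_sub_le' x y
    rw [mul_comm]
    exact this
  · let g : Lip0 M o := Lip0.mk (fun t => ((dist t y - dist o y : ℝ) : ℂ)) (by simp) 1
      zero_le_one (by
        intro a b
        rw [← Complex.ofReal_sub, Complex.norm_real, Real.norm_eq_abs, one_mul,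
          sub_sub_sub_cancel_right]
        exact abs_dist_sub_le a b y)
    have hg : ‖g‖ ≤ 1 := Lip0.norm_le' _ zero_le_one (by
        intro a b
        show ‖((dist a y - dist o y : ℝ) : ℂ) - ((dist b y - dist o y : ℝ) : ℂ)‖ ≤ _
        rw [← Complex.ofReal_sub, Complex.norm_real, Real.norm_eq_abs, one_mul,
          sub_sub_sub_cancel_right]
        exact abs_dist_sub_le a b y)
    have h1 := (evalAt M o x - evalAt M o y).le_opNorm g
    have h2 : (evalAt M o x - evalAt M o y) g = ((dist x y : ℝ) : ℂ) := by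
      show ((dist x y - dist o y : ℝ) : ℂ) - ((dist y y - dist o y : ℝ) : ℂ) = _
      rw [dist_self]
      push_cast
      ring
    rw [h2, Complex.norm_real, Real.norm_eq_abs, abs_of_nonneg dist_nonneg] at h1
    have h3 := mul_le_mul_of_nonneg_left hg (norm_nonneg (evalAt M o x - evalAt M o y))
    linarith

lemma dense_span : Dense (Submodule.span ℂ (Set.range (delta M o)) : Set (Free M o)) := by
  have hmap : (Submodule.span ℂ (Set.range (delta M o))).map
      ((incl M o : Free M o →L[ℂ] _) : Free M o →ₗ[ℂ] _) =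
      Submodule.span ℂ (Set.range (evalAt M o)) := by
    rw [Submodule.map_span, ← Set.range_comp]
    rfl
  rw [Metric.dense_iff]
  intro v r hr
  have hv : (v.1 : StrongDual ℂ (Lip0 M o)) ∈
      closure (Submodule.span ℂ (Set.range (evalAt M o)) : Set (StrongDual ℂ (Lip0 M o))) :=
    v.2
  obtain ⟨u, hu, huv⟩ := Metric.mem_closure_iff.1 hv r hr
  rw [SetLike.mem_coe, ← hmap] at hu
  obtain ⟨u', hu', rfl⟩ := Submodule.mem_map.1 hu
  exact ⟨u', by rw [Metric.mem_ball, dist_comm]; exact huv, hu'⟩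

/-- the adjoint construction -/
lemma exists_lift (v : M → Free M o) (K : ℝ) (hK : 0 ≤ K) (hv0 : v o = 0)
    (hv : ∀ x y, ‖v x - v y‖ ≤ K * dist x y) :
    ∃ T : Free M o →L[ℂ] Free M o, (∀ x, T (delta M o x) = v x) ∧ ‖T‖ ≤ K := by
  have hlip : ∀ (g : Lip0 M o) (x y : M), ‖(v x).1 g - (v y).1 g‖ ≤ K * ‖g‖ * dist x y := by
    intro g x y
    have h1 := ((v x).1 - (v y).1).le_opNorm g
    have h2 : ‖(v x).1 - (v y).1‖ ≤ K * dist x y := hv x y
    have h3 := mul_le_mul_of_nonneg_right h2 (norm_nonneg g)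
    calc ‖(v x).1 g - (v y).1 g‖ ≤ _ := h1
      _ ≤ K * dist x y * ‖g‖ := h3
      _ = _ := by ring
  let S : Lip0 M o →L[ℂ] Lip0 M o := LinearMap.mkContinuous
    { toFun := fun g => Lip0.mk (fun x => (v x).1 g) (by rw [hv0]; rfl) (K * ‖g‖)
        (by positivity) (hlip g)
      map_add' := fun g h => Lip0.ext fun x => (v x).1.map_add g h
      map_smul' := fun c g => Lip0.ext fun x => (v x).1.map_smul c g } K (fun g =>
        Lip0.norm_le' _ (by positivity) (hlip g))
  have hS : ‖S‖ ≤ K := LinearMap.mkContinuous_norm_le _ hK _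
  let T0 : StrongDual ℂ (Lip0 M o) →L[ℂ] StrongDual ℂ (Lip0 M o) :=
    (ContinuousLinearMap.compL ℂ (Lip0 M o) (Lip0 M o) ℂ).flip S
  have hT0 : ∀ γ g, T0 γ g = γ (S g) := fun _ _ => rfl
  have hT0eval : ∀ x, T0 (evalAt M o x) = (v x).1 := by
    intro x
    ext g
    rw [hT0]
    rfl
  have hmaps : freeSub M o ≤ (freeSub M o).comap (T0 : _ →ₗ[ℂ] _) := by
    apply Submodule.topologicalClosure_minimal
    · rw [Submodule.span_le]
      rintro _ ⟨x, rfl⟩
      show T0 (evalAt M o x) ∈ freeSub M o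
      rw [hT0eval]
      exact (v x).2
    · exact (Submodule.isClosed_topologicalClosure _).preimage T0.continuous
  let T1 : Free M o →L[ℂ] Free M o :=
    (T0.comp (incl M o)).codRestrict (freeSub M o) (fun γ => hmaps γ.2)
  refine ⟨T1, fun x => Subtype.ext (hT0eval x), ?_⟩
  apply ContinuousLinearMap.opNorm_le_bound _ hK
  intro γ
  show ‖T0 γ.1‖ ≤ K * ‖γ.1‖
  apply ContinuousLinearMap.opNorm_le_bound _ (by positivity)
  intro g
  rw [hT0]
  calc ‖γ.1 (S g)‖ ≤ ‖γ.1‖ * ‖S g‖ := γ.1.le_opNorm _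
    _ ≤ ‖γ.1‖ * (‖S‖ * ‖g‖) := mul_le_mul_of_nonneg_left (S.le_opNorm g) (norm_nonneg _)
    _ ≤ ‖γ.1‖ * (K * ‖g‖) := by gcongr
    _ = _ := by ring

lemma exists_func (h : M → ℂ) (K : ℝ) (hK : 0 ≤ K) (h0 : h o = 0)
    (hh : ∀ x y, ‖h x - h y‖ ≤ K * dist x y) :
    ∃ φ : Free M o →L[ℂ] ℂ, (∀ x, φ (delta M o x) = h x) ∧ ‖φ‖ ≤ K := by
  let g : Lip0 M o := Lip0.mk h h0 K hK hh
  have hg : ‖g‖ ≤ K := Lip0.norm_le' _ hK hh
  refine ⟨(ContinuousLinearMap.apply ℂ ℂ g).comp (incl M o), fun x => rfl, ?_⟩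
  apply ContinuousLinearMap.opNorm_le_bound _ hK
  intro γ
  show ‖γ.1 g‖ ≤ K * ‖γ.1‖
  have h1 := γ.1.le_opNorm g
  have h2 := mul_le_mul_of_nonneg_left hg (norm_nonneg γ.1)
  linarith

theorem isLF : IsLF o (delta M o) where
  base := Subtype.ext evalAt_base
  isom x y := norm_evalAt_sub x y
  dense := dense_span
  lift := exists_lift
  func := exists_func

end Pool.Agent.R571.LFS
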