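import Pool.Agent.R571.LFS.Op
import Pool.Agent.R571.LFS.Dyn

/-! The spectrum of compact Lipschitz operators. -/

namespace Pool.Agent.R571.LFS

open Filter Topology Metric

variable {M : Type*} [MetricSpace M] {o : M} {F : Type*} [NormedAddCommGroup F]
  [NormedSpace ℂ F] {δ : M → F}

lemma pow_delta {T : F →L[ℂ] F} {f : M → M} (hf : ∀ x, T (δ x) = δ (f x)) (n : ℕ) (x : M) :
    (T ^ n) (δ x) = δ (f^[n] x) := by
  induction n generalizing x with
  | zero => rfl
  | succ n ih =>
    rw [pow_succ, ContinuousLinearMap.mul_apply, hf, ih, Function.iterate_succ_apply]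

lemma pow_eigen {T : F →L[ℂ] F} {l : ℂ} {g : F} (hg : T g = l • g) (n : ℕ) :
    (T ^ n) g = l ^ n • g := by
  induction n with
  | zero => simp
  | succ n ih =>
    rw [pow_succ, ContinuousLinearMap.mul_apply, hg, map_smul, ih, smul_smul, pow_succ, mul_comm]

lemma IsLF.lip_of (H : IsLF o δ) {T : F →L[ℂ] F} {f : M → M} (hf : ∀ x, T (δ x) = δ (f x))
    (a b : M) : dist (f a) (f b) ≤ ‖T‖ * dist a b := by
  rw [← H.isom, ← H.isom, ← hf, ← hf, ← map_sub]
  exact T.le_opNorm _

lemma IsLF.cont_of (H : IsLF o δ) {T : F →L[ℂ] F} {f : M → M} (hf : ∀ x, T (δ x) = δ (f x)) :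
    Continuous f := by
  have : LipschitzWith ‖T‖₊ f := LipschitzWith.of_dist_le_mul fun a b => H.lip_of hf a b
  exact this.continuous

/-- the key vanishing lemma -/
lemma IsLF.vanish (H : IsLF o δ) {T : F →L[ℂ] F} {f : M → M} (hf : ∀ x, T (δ x) = δ (f x))
    {R : ℝ} (hR : 0 < R) (hB : Set.MapsTo f (closedBall o (2 * R)) (closedBall o (2 * R)))
    (hcomp : IsCompact (closure (f '' closedBall o (2 * R)))) {s c : ℝ} (hs0 : 0 < s)
    (hc0 : 0 < c) (hc1 : c ≤ 1)
    (hs : ∀ x y, dist x y < s → dist (f x) (f y) ≤ c * dist x y)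
    {l : ℂ} (hl : c < ‖l‖) {g : F} (hg : T g = l • g) (hW : H.W R g = g)
    (φ : F →L[ℂ] ℂ) (hφ : ∀ k ∈ Kset f (closedBall o (2 * R)), φ (δ k) = 0) : φ g = 0 := by
  obtain ⟨n0, hn0⟩ := Kset_attract hB hcomp hs0
  have hcont := H.cont_of hf
  set h : M → ℂ := fun x => φ (δ x) with hh
  have hlip : ∀ x y, ‖h x - h y‖ ≤ ‖φ‖ * dist x y := by
    intro x y
    rw [hh]
    simp only
    rw [← map_sub, ← H.isom]
    exact φ.le_opNorm _
  have hKiter : ∀ m, ∀ k ∈ Kset f (closedBall o (2 * R)), f^[m] k ∈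
      Kset f (closedBall o (2 * R)) := fun m k hk =>
    (Set.MapsTo.iterate (Kset_maps hcont hB) m) hk
  have hsmall : ∀ (m : ℕ) (x : M), x ∈ closedBall o (2 * R) →
      ‖h (f^[m + (n0 + 1)] x)‖ ≤ ‖φ‖ * (c ^ m * s) := by
    intro m x hx
    obtain ⟨k, hk, hxk⟩ := hn0 x hx
    have h1 := contr_iter hc0.le hc1 hs m hxk
    have h2 : h (f^[m] k) = 0 := hφ _ (hKiter m k hk)
    rw [Function.iterate_add_apply]
    have h3 := hlip (f^[m] (f^[n0 + 1] x)) (f^[m] k)
    rw [h2, sub_zero] at h3
    refine h3.trans ?_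
    apply mul_le_mul_of_nonneg_left _ (norm_nonneg _)
    refine h1.trans ?_
    exact mul_le_mul_of_nonneg_left hxk.le (by positivity)
  have hbound : ∀ m : ℕ, ‖φ ((T ^ (m + (n0 + 1))) (H.W R g))‖ ≤
      (‖φ‖ * c ^ m * (2 + s / R)) * ‖g‖ := by
    intro m
    set n := m + (n0 + 1) with hn
    have hcn : c ^ n ≤ c ^ m := pow_le_pow_of_le_one hc0.le hc1 (by omega)
    obtain ⟨φ', hφ'1, hφ'2⟩ := H.func (fun x => ((chi o R x : ℝ) : ℂ) * h (f^[n] x))
      (‖φ‖ * c ^ m * (2 + s / R)) (by positivity) (by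
        have hfo : f o = o := by
          have h1 := hf o
          rw [H.base, map_zero] at h1
          have h2 := H.norm_delta (f o)
          rw [← h1, norm_zero] at h2
          exact dist_eq_zero.1 h2.symm
        have h2 : f^[n] o = o := Function.iterate_fixed hfo n
        rw [h2, hh]
        simp [H.base]) (by
      have key : ∀ x y, y ∈ closedBall o (2 * R) →
          ‖((chi o R x : ℝ) : ℂ) * h (f^[n] x) - ((chi o R y : ℝ) : ℂ) * h (f^[n] y)‖ ≤
            (‖φ‖ * c ^ m * (2 + s / R)) * dist x y := by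
        intro x y hy
        have e : ((chi o R x : ℝ) : ℂ) * h (f^[n] x) - ((chi o R y : ℝ) : ℂ) * h (f^[n] y) =
            ((chi o R x : ℝ) : ℂ) * (h (f^[n] x) - h (f^[n] y)) +
              ((chi o R x - chi o R y : ℝ) : ℂ) * h (f^[n] y) := by
          push_cast
          ring
        rw [e]
        refine (norm_add_le _ _).trans ?_
        rw [norm_mul, norm_mul, Complex.norm_real, Complex.norm_real, Real.norm_eq_abs,
          Real.norm_eq_abs, abs_of_nonneg (chi_nonneg x)]
        have h1 : chi o R x * ‖h (f^[n] x) - h (f^[n] y)‖ ≤ 2 * (‖φ‖ * c ^ m) * dist x y := by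
          by_cases hx : x ∈ closedBall o (2 * R)
          · have h2 : ‖h (f^[n] x) - h (f^[n] y)‖ ≤ 2 * (‖φ‖ * c ^ m) * dist x y := by
              by_cases hxy : dist x y < s
              · refine (hlip _ _).trans ?_
                have h3 := contr_iter hc0.le hc1 hs n hxy
                have h4 : c ^ n * dist x y ≤ c ^ m * dist x y :=
                  mul_le_mul_of_nonneg_right hcn dist_nonneg
                have h5 : ‖φ‖ * dist (f^[n] x) (f^[n] y) ≤ ‖φ‖ * (c ^ m * dist x y) :=
                  mul_le_mul_of_nonneg_left (h3.trans h4) (norm_nonneg _)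
                have h6 : 0 ≤ ‖φ‖ * (c ^ m * dist x y) := by positivity
                linarith
              · push Not at hxy
                refine (norm_sub_le _ _).trans ?_
                have h3 := hsmall m x hx
                have h4 := hsmall m y hy
                rw [← hn] at h3 h4
                have h5 : ‖φ‖ * (c ^ m * s) ≤ ‖φ‖ * (c ^ m * dist x y) := by
                  apply mul_le_mul_of_nonneg_left _ (norm_nonneg _)
                  exact mul_le_mul_of_nonneg_left hxy (by positivity)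
                linarith
            calc chi o R x * ‖h (f^[n] x) - h (f^[n] y)‖
                ≤ 1 * ‖h (f^[n] x) - h (f^[n] y)‖ :=
                  mul_le_mul_of_nonneg_right (chi_le_one x) (norm_nonneg _)
              _ ≤ _ := by rw [one_mul]; exact h2
          · rw [mem_closedBall] at hx
            push Not at hx
            rw [chi_zero hR hx.le, zero_mul]
            positivity
        have h2 : |chi o R x - chi o R y| * ‖h (f^[n] y)‖ ≤
            (dist x y / R) * (‖φ‖ * (c ^ m * s)) := by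
          apply mul_le_mul (chi_lip hR x y) _ (norm_nonneg _) (by positivity)
          have := hsmall m y hy
          rwa [← hn] at this
        have h3 : (dist x y / R) * (‖φ‖ * (c ^ m * s)) = (‖φ‖ * c ^ m * (s / R)) * dist x y := by
          field_simp
        nlinarith
      intro x y
      by_cases hy : y ∈ closedBall o (2 * R)
      · exact key x y hy
      · by_cases hx : x ∈ closedBall o (2 * R)
        · rw [norm_sub_rev, dist_comm x y]
          exact key y x hx
        · rw [mem_closedBall] at hx hy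
          push Not at hx hy
          rw [chi_zero hR hx.le, chi_zero hR hy.le]
          simp
          positivity)
    have hext : φ.comp ((T ^ n).comp (H.W R)) = φ' := by
      apply H.ext
      intro x
      simp only [ContinuousLinearMap.comp_apply]
      rw [H.W_delta hR, map_smul, map_smul, pow_delta hf, hφ'1, smul_eq_mul]
    have h1 : φ ((T ^ n) (H.W R g)) = φ' g := by
      rw [← hext]
      rfl
    rw [h1]
    refine (φ'.le_opNorm g).trans ?_
    exact mul_le_mul_of_nonneg_right hφ'2 (norm_nonneg _)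
  have hlpos : 0 < ‖l‖ := hc0.trans hl
  have hfin : ∀ m : ℕ, ‖φ g‖ ≤ (‖φ‖ * (2 + s / R) * ‖g‖ / ‖l‖ ^ (n0 + 1)) * (c / ‖l‖) ^ m := by
    intro m
    have h1 := hbound m
    rw [hW, pow_eigen hg, map_smul, smul_eq_mul, norm_mul, norm_pow] at h1
    rw [div_pow, div_mul_div_comm, le_div_iff₀ (by positivity), ← pow_add, add_comm (n0 + 1) m]
    calc ‖φ g‖ * ‖l‖ ^ (m + (n0 + 1)) = ‖l‖ ^ (m + (n0 + 1)) * ‖φ g‖ := by ring
      _ ≤ _ := h1
      _ = _ := by ring
  have hlim : Tendsto (fun m : ℕ => (‖φ‖ * (2 + s / R) * ‖g‖ / ‖l‖ ^ (n0 + 1)) *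
      (c / ‖l‖) ^ m) atTop (𝓝 ((‖φ‖ * (2 + s / R) * ‖g‖ / ‖l‖ ^ (n0 + 1)) * 0)) :=
    (tendsto_pow_atTop_nhds_zero_of_lt_one (by positivity)
      ((div_lt_one hlpos).2 hl)).const_mul _
  rw [mul_zero] at hlim
  exact norm_le_zero_iff.1 (ge_of_tendsto' hlim hfin)

/-- bump functionals -/
lemma IsLF.bump (H : IsLF o δ) {S : Set M} (hS : S.Finite) {k : M} (hk : k ≠ o) :
    ∃ φ : F →L[ℂ] ℂ, φ (δ k) = 1 ∧ ∀ k' ∈ S, k' ≠ k → φ (δ k') = 0 := by
  have hev : ∀ᶠ ε : ℝ in 𝓝[>] 0, ∀ k' ∈ insert o S, k' ≠ k → ε ≤ dist k' k := by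
    rw [Filter.eventually_all_finite (hS.insert o)]
    intro k' _
    by_cases h : k' = k
    · exact Eventually.of_forall fun _ h' => absurd h h'
    · filter_upwards [Ioo_mem_nhdsGT (dist_pos.2 h)] with ε hε _
      exact hε.2.le
  obtain ⟨ε, hε, hε0⟩ := (hev.and self_mem_nhdsWithin).exists
  have hε0' : 0 < ε := hε0
  have hmaxlip : ∀ a b : ℝ, |max 0 a - max 0 b| ≤ |a - b| := by
    intro a b
    rcases le_total a 0 with ha | ha <;> rcases le_total b 0 with hb | hb <;>
    simp only [max_eq_left, max_eq_right, ha, hb] <;>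
    rw [abs_le] <;> constructor <;> cases abs_cases (a - b) <;> linarith
  have hval : ∀ k' ∈ insert o S, k' ≠ k → max 0 (1 - dist k' k / ε) = 0 := by
    intro k' hk' hne
    apply max_eq_left
    have := (one_le_div hε0').2 (hε k' hk' hne)
    linarith
  obtain ⟨φ, hφ, -⟩ := H.func (fun x => ((max 0 (1 - dist x k / ε) : ℝ) : ℂ)) (1 / ε)
    (by positivity) (by
      rw [hval o (Set.mem_insert _ _) hk.symm]
      simp) (by
    intro x y
    rw [← Complex.ofReal_sub, Complex.norm_real, Real.norm_eq_abs]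
    refine (hmaxlip _ _).trans ?_
    have e : 1 - dist x k / ε - (1 - dist y k / ε) = -((dist x k - dist y k) / ε) := by ring
    rw [e, abs_neg, abs_div, abs_of_pos hε0', one_div, inv_mul_eq_div]
    exact div_le_div_of_nonneg_right (abs_dist_sub_le x y k) hε0'.le)
  refine ⟨φ, ?_, fun k' hk' hne => ?_⟩
  · rw [hφ]
    simp
  · rw [hφ, hval k' (Set.mem_insert_of_mem _ hk') hne]
    simp

/-- `A(f)`: the orders of the periodic points different from the base point. -/
def perOrders (f : M → M) (o : M) : Set ℕ :=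
  {n | 1 ≤ n ∧ ∃ x, x ≠ o ∧ f^[n] x = x ∧ ∀ k, 1 ≤ k → k < n → f^[k] x ≠ x}

lemma IsLF.compact_image (H : IsLF o δ) [CompleteSpace M] {T : F →L[ℂ] F}
    (hT : IsCompactOperator T) {f : M → M} (hf : ∀ x, T (δ x) = δ (f x)) (ρ : ℝ) :
    IsCompact (closure (f '' closedBall o ρ)) := by
  obtain ⟨K, hK, hTK⟩ := hT.image_closedBall_subset_compact (f := (T : F →ₗ[ℂ] F)) ρ
  have hiso : Isometry δ := Isometry.of_dist_eq fun x y => by rw [dist_eq_norm, H.isom]
  have hpre : IsCompact (δ ⁻¹' K) := hiso.isClosedEmbedding.isCompact_preimage hK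
  refine hpre.of_isClosed_subset isClosed_closure ?_
  apply closure_minimal _ hpre.isClosed
  rintro _ ⟨x, hx, rfl⟩
  apply hTK
  refine ⟨δ x, ?_, hf x⟩
  rw [mem_closedBall_zero_iff, H.norm_delta]
  exact hx

theorem IsLF.eigen_root (H : IsLF o δ) [CompleteSpace M] {T : F →L[ℂ] F}
    (hT : IsCompactOperator T) {f : M → M} (hf : ∀ x, T (δ x) = δ (f x)) {l : ℂ} (hl : l ≠ 0)
    {g : F} (hg : T g = l • g) (hg0 : g ≠ 0) : ∃ n ∈ perOrders f o, l ^ n = 1 := by
  classical
  have hlp : 0 < ‖l‖ := norm_pos_iff.2 hl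
  obtain ⟨R, ⟨hW, hrad⟩, hR⟩ := (((H.eigen_bounded hT hf hl hg).and (H.radial hT hf)).and
    (eventually_gt_atTop 0)).exists
  set c : ℝ := min (1/2) (‖l‖ / 2) with hc
  have hc0 : 0 < c := lt_min (by norm_num) (by linarith)
  have hc1 : c < 1 := (min_le_left _ _).trans_lt (by norm_num)
  have hcl : c < ‖l‖ := (min_le_right _ _).trans_lt (by linarith)
  obtain ⟨s, hs0, hs⟩ := H.flat hT hf hc0
  have hB : Set.MapsTo f (closedBall o (2 * R)) (closedBall o (2 * R)) := by
    intro x hx
    rw [mem_closedBall] at hx ⊢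
    have := hrad x (by linarith)
    linarith
  have hcomp := H.compact_image hT hf (2 * R)
  have hcont := H.cont_of hf
  have hfin := Kset_finite hcont hB hcomp hs0 hc0.le hc1 hs
  set K := Kset f (closedBall o (2 * R)) with hK
  have hfo : f o = o := by
    have h1 := hf o
    rw [H.base, map_zero] at h1
    have h2 := H.norm_delta (f o)
    rw [← h1, norm_zero] at h2
    exact dist_eq_zero.1 h2.symm
  have hoK : o ∈ K := by
    apply Kset_of_periodic (p := 1) _ one_pos (by simpa using hfo)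
    intro j
    rw [Function.iterate_fixed hfo j]
    exact mem_closedBall_self (by positivity)
  have hinj := Kset_inj hcont hB hcomp hfin
  have hmaps := Kset_maps hcont hB
  have hvan := fun φ => H.vanish hf hR hB hcomp hs0 hc0 hc1.le hs hcl hg hW φ
  have hbump : ∀ k : M, ∃ φ : F →L[ℂ] ℂ, k ≠ o → (φ (δ k) = 1 ∧ ∀ k' ∈ K, k' ≠ k →
      φ (δ k') = 0) := by
    intro k
    by_cases hk : k = o
    · exact ⟨0, fun h => absurd hk h⟩
    · obtain ⟨φ, hφ⟩ := H.bump hfin hk
      exact ⟨φ, fun _ => hφ⟩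
  choose b hb using hbump
  have hne : ∃ k ∈ K, k ≠ o ∧ b k g ≠ 0 := by
    by_contra hcon
    push Not at hcon
    apply hg0
    apply NormedSpace.eq_zero_of_forall_dual_eq_zero ℂ
    intro φ
    have h1 := hvan (φ - ∑ k ∈ hfin.toFinset.erase o, φ (δ k) • b k) (by
      intro k hk
      rw [ContinuousLinearMap.sub_apply, ContinuousLinearMap.sum_apply]
      by_cases hko : k = o
      · subst hko
        rw [H.base]
        simp
      · rw [Finset.sum_eq_single k]
        · rw [ContinuousLinearMap.smul_apply, (hb k hko).1, smul_eq_mul, mul_one, sub_self]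
        · intro k' hk' hne
          rw [Finset.mem_erase] at hk'
          rw [ContinuousLinearMap.smul_apply, (hb k' hk'.1).2 k hk hne.symm, smul_zero]
        · intro hk'
          exfalso
          apply hk'
          rw [Finset.mem_erase]
          exact ⟨hko, hfin.mem_toFinset.2 hk⟩)
    rw [ContinuousLinearMap.sub_apply, ContinuousLinearMap.sum_apply, Finset.sum_eq_zero,
      sub_zero] at h1
    · exact h1
    · intro k hk
      rw [Finset.mem_erase] at hk
      rw [ContinuousLinearMap.smul_apply, hcon k (hfin.mem_toFinset.1 hk.2) hk.1, smul_zero]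
  obtain ⟨k, hkK, hko, hbk⟩ := hne
  have hstep : ∀ k ∈ K, k ≠ o → f k ≠ o ∧ b k g = l * b (f k) g := by
    intro k hk hko
    have hfk : f k ≠ o := by
      intro h
      apply hko
      apply hinj hk hoK
      rw [h, hfo]
    refine ⟨hfk, ?_⟩
    have h1 := hvan ((b (f k)).comp T - b k) (by
      intro k' hk'
      rw [ContinuousLinearMap.sub_apply, ContinuousLinearMap.comp_apply, hf]
      by_cases hkk : k' = k
      · subst hkk
        rw [(hb _ hfk).1, (hb _ hko).1, sub_self]
      · rw [(hb _ hko).2 k' hk' hkk, (hb _ hfk).2 (f k') (hmaps hk') (fun h =>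
          hkk (hinj hk' hk h)), sub_self])
    rw [ContinuousLinearMap.sub_apply, ContinuousLinearMap.comp_apply, hg, map_smul,
      smul_eq_mul, sub_eq_zero] at h1
    exact h1.symm
  have hiter : ∀ n, f^[n] k ∈ K ∧ f^[n] k ≠ o ∧ b k g = l ^ n * b (f^[n] k) g := by
    intro n
    induction n with
    | zero => exact ⟨hkK, hko, by simp⟩
    | succ n ih =>
      obtain ⟨h1, h2, h3⟩ := ih
      obtain ⟨h4, h5⟩ := hstep _ h1 h2
      rw [Function.iterate_succ_apply']
      refine ⟨hmaps h1, h4, ?_⟩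
      rw [h3, h5, pow_succ]
      ring
  obtain ⟨p, hp, hper⟩ := Kset_periodic hcont hB hcomp hfin hkK
  have hpp : Function.IsPeriodicPt f p k := hper
  have hmin : 0 < Function.minimalPeriod f k := hpp.minimalPeriod_pos hp
  refine ⟨Function.minimalPeriod f k, ⟨hmin, k, hko, Function.iterate_minimalPeriod, ?_⟩, ?_⟩
  · intro j hj1 hj2 hj3
    exact Function.not_isPeriodicPt_of_pos_of_lt_minimalPeriod (by omega) hj2 hj3
  · obtain ⟨-, -, h⟩ := hiter (Function.minimalPeriod f k)
    rw [Function.iterate_minimalPeriod] at h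
    have h2 : (l ^ Function.minimalPeriod f k - 1) * b k g = 0 := by
      rw [sub_mul, one_mul, ← h, sub_self]
    rcases mul_eq_zero.1 h2 with h3 | h3
    · exact sub_eq_zero.1 h3
    · exact absurd h3 hbk

theorem IsLF.root_eigen (H : IsLF o δ) {T : F →L[ℂ] F} {f : M → M}
    (hf : ∀ x, T (δ x) = δ (f x)) {n : ℕ} (hn : n ∈ perOrders f o) {l : ℂ} (hl : l ^ n = 1) :
    ∃ g : F, g ≠ 0 ∧ T g = l • g := by
  obtain ⟨hn1, x, hxo, hper, hmin⟩ := hn
  have hl0 : l ≠ 0 := by
    rintro rfl
    rw [zero_pow (by omega)] at hl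
    exact zero_ne_one hl
  refine ⟨∑ k ∈ Finset.range n, (l⁻¹) ^ k • δ (f^[k] x), ?_, ?_⟩
  · obtain ⟨φ, hφ1, hφ2⟩ := H.bump (S := (fun k => f^[k] x) '' (Finset.range n : Set ℕ))
      ((Finset.finite_toSet _).image _) hxo
    intro h0
    have h1 := congrArg φ h0
    rw [map_sum, map_zero, Finset.sum_eq_single 0] at h1
    · simp [hφ1] at h1
    · intro k hk hk0
      rw [map_smul, hφ2 _ ⟨k, hk, rfl⟩ (hmin k (by omega) (Finset.mem_range.1 hk)), smul_zero]
    · intro h
      exact absurd (Finset.mem_range.2 (by omega)) h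
  · rw [map_sum, Finset.smul_sum]
    have h1 : ∀ k, T ((l⁻¹) ^ k • δ (f^[k] x)) = l • ((l⁻¹) ^ (k + 1) • δ (f^[k + 1] x)) := by
      intro k
      rw [map_smul, hf, ← Function.iterate_succ_apply' f, smul_smul, pow_succ, ← mul_assoc,
        mul_comm l, mul_assoc, mul_inv_cancel₀ hl0, mul_one]
    simp only [h1]
    rw [← Finset.smul_sum, ← Finset.smul_sum]
    congr 1
    have h2 := Finset.sum_range_succ' (fun k => (l⁻¹) ^ k • δ (f^[k] x)) n
    rw [Finset.sum_range_succ] at h2
    simp only [pow_zero, Function.iterate_zero, id, one_smul] at h2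
    rw [hper, inv_pow, hl, inv_one, one_smul] at h2
    exact (add_right_cancel h2).symm

theorem IsLF.finite_orders (H : IsLF o δ) [CompleteSpace M] {T : F →L[ℂ] F}
    (hT : IsCompactOperator T) {f : M → M} (hf : ∀ x, T (δ x) = δ (f x)) :
    (perOrders f o).Finite := by
  obtain ⟨R1, hR1⟩ := eventually_atTop.1 ((H.radial hT hf).and (eventually_gt_atTop 0))
  have hR1p : 0 < R1 := (hR1 R1 le_rfl).2
  obtain ⟨s, hs0, hs⟩ := H.flat hT hf (c := 1/2) (by norm_num)
  have hB : Set.MapsTo f (closedBall o (4 * R1)) (closedBall o (4 * R1)) := by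
    intro x hx
    rw [mem_closedBall] at hx ⊢
    have := (hR1 R1 le_rfl).1 x hx
    linarith
  have hcomp := H.compact_image hT hf (4 * R1)
  have hcont := H.cont_of hf
  have hfin := Kset_finite hcont hB hcomp hs0 (c := 1/2) (by norm_num) (by norm_num) hs
  refine (hfin.image (Function.minimalPeriod f)).subset ?_
  rintro n ⟨hn1, x, hxo, hper, hmin⟩
  have hpp : Function.IsPeriodicPt f n x := hper
  have hmp : Function.minimalPeriod f x = n := by
    apply le_antisymm (hpp.minimalPeriod_le (by omega))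
    by_contra hcon
    push Not at hcon
    exact hmin _ (hpp.minimalPeriod_pos (by omega)) hcon Function.iterate_minimalPeriod
  refine ⟨x, ?_, hmp⟩
  apply Kset_of_periodic _ (by omega : 0 < n) hper
  -- the orbit is in the ball
  obtain ⟨j0, -, hj0⟩ := Finset.exists_max_image (Finset.range n)
    (fun j => dist (f^[j] x) o) ⟨0, Finset.mem_range.2 (by omega)⟩
  have hmax : ∀ j, dist (f^[j] x) o ≤ dist (f^[j0] x) o := by
    intro j
    have h1 := hj0 (j % n) (Finset.mem_range.2 (Nat.mod_lt _ (by omega)))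
    have h2 : f^[j % n] x = f^[j] x := by
      have := hpp.iterate_mod_apply j
      exact this
    rwa [h2] at h1
  have hD : dist (f^[j0] x) o ≤ 4 * R1 := by
    by_contra hcon
    push Not at hcon
    set D := dist (f^[j0] x) o with hDdef
    have h1 := (hR1 (D / 4) (by linarith)).1
    have h2 : f^[j0] x = f (f^[j0 + n - 1] x) := by
      rw [← Function.iterate_succ_apply' f]
      have e : (j0 + n - 1).succ = j0 + n := by omega
      rw [e, Function.iterate_add_apply, hper]
    have h3 := h1 (f^[j0 + n - 1] x) (by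
      have := hmax (j0 + n - 1)
      linarith)
    rw [← h2, ← hDdef] at h3
    linarith
  intro j
  rw [mem_closedBall]
  exact (hmax j).trans hD

theorem IsLF.main (H : IsLF o δ) [CompleteSpace M] [CompleteSpace F] {T : F →L[ℂ] F}
    (hT : IsCompactOperator T) {f : M → M} (hf : ∀ x, T (δ x) = δ (f x)) :
    (perOrders f o).Finite ∧
      spectrum ℂ T \ {0} = ⋃ n ∈ perOrders f o, {z : ℂ | z ^ n = 1} := by
  refine ⟨H.finite_orders hT hf, ?_⟩
  ext l
  simp only [Set.mem_diff, Set.mem_singleton_iff, Set.mem_iUnion, Set.mem_setOf_eq, exists_prop]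
  constructor
  · rintro ⟨hl, hl0⟩
    have h1 := (hT.hasEigenvalue_iff_mem_spectrum hl0).2 hl
    obtain ⟨g, hg⟩ := h1.exists_hasEigenvector
    exact H.eigen_root hT hf hl0 hg.apply_eq_smul hg.2
  · rintro ⟨n, hn, hl⟩
    have hl0 : l ≠ 0 := by
      rintro rfl
      rw [zero_pow (by have := hn.1; omega)] at hl
      exact zero_ne_one hl
    refine ⟨(hT.hasEigenvalue_iff_mem_spectrum hl0).1 ?_, hl0⟩
    obtain ⟨g, hg0, hg⟩ := H.root_eigen hf hn hl
    exact Module.End.hasEigenvalue_of_hasEigenvector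
      (x := g) ⟨Module.End.mem_eigenspace_iff.2 hg, hg0⟩

end Pool.Agent.R571.LFS
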