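import Mathlib

/-! Compact Lipschitz operators on (complex) Lipschitz-free spaces: cut-offs and flatness. -/

namespace Pool.Agent.R571.LFS

open Filter Topology Metric

/-- The properties of the Lipschitz-free space used in the proof. -/
structure IsLF {M : Type*} [MetricSpace M] (o : M) {F : Type*} [NormedAddCommGroup F]
    [NormedSpace ℂ F] (δ : M → F) : Prop where
  base : δ o = 0
  isom : ∀ x y, ‖δ x - δ y‖ = dist x y
  dense : Dense (Submodule.span ℂ (Set.range δ) : Set F)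
  lift : ∀ (v : M → F) (K : ℝ), 0 ≤ K → v o = 0 → (∀ x y, ‖v x - v y‖ ≤ K * dist x y) →
    ∃ T : F →L[ℂ] F, (∀ x, T (δ x) = v x) ∧ ‖T‖ ≤ K
  func : ∀ (h : M → ℂ) (K : ℝ), 0 ≤ K → h o = 0 → (∀ x y, ‖h x - h y‖ ≤ K * dist x y) →
    ∃ φ : F →L[ℂ] ℂ, (∀ x, φ (δ x) = h x) ∧ ‖φ‖ ≤ K

/-- cut-off function -/
noncomputable def chi {M : Type*} [MetricSpace M] (o : M) (R : ℝ) (x : M) : ℝ :=
  max 0 (min 1 (2 - dist x o / R))

section chi

variable {M : Type*} [MetricSpace M] {o : M} {R : ℝ}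

lemma chi_nonneg (x : M) : 0 ≤ chi o R x := le_max_left _ _

lemma chi_le_one (x : M) : chi o R x ≤ 1 := max_le zero_le_one (min_le_left _ _)

lemma chi_one (hR : 0 < R) {x : M} (hx : dist x o ≤ R) : chi o R x = 1 := by
  unfold chi
  have : dist x o / R ≤ 1 := (div_le_one hR).2 hx
  rw [min_eq_left (by linarith), max_eq_right zero_le_one]

lemma chi_zero (hR : 0 < R) {x : M} (hx : 2 * R ≤ dist x o) : chi o R x = 0 := by
  unfold chi
  have : 2 ≤ dist x o / R := (le_div_iff₀ hR).2 hx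
  rw [max_eq_left]
  exact (min_le_right _ _).trans (by linarith)

lemma clamp_lip (a b : ℝ) : |max 0 (min 1 a) - max 0 (min 1 b)| ≤ |a - b| := by
  rcases le_total a 0 with ha | ha <;> rcases le_total b 0 with hb | hb <;>
  rcases le_total a 1 with ha1 | ha1 <;> rcases le_total b 1 with hb1 | hb1 <;>
  simp only [min_eq_right, min_eq_left, max_eq_left, max_eq_right, ha, hb, ha1, hb1,
    zero_le_one] <;>
  rw [abs_le] <;> constructor <;>
  cases abs_cases (a - b) <;> linarith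

lemma chi_lip (hR : 0 < R) (x y : M) : |chi o R x - chi o R y| ≤ dist x y / R := by
  unfold chi
  refine (clamp_lip _ _).trans ?_
  have h1 : 2 - dist x o / R - (2 - dist y o / R) = -((dist x o - dist y o) / R) := by ring
  rw [h1, abs_neg, abs_div, abs_of_pos hR]
  exact div_le_div_of_nonneg_right (abs_dist_sub_le x y o) hR.le

lemma chi_base (hR : 0 < R) : chi o R o = 1 := chi_one hR (by simpa using hR.le)

end chi

variable {M : Type*} [MetricSpace M] {o : M} {F : Type*} [NormedAddCommGroup F]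
  [NormedSpace ℂ F] {δ : M → F}

lemma IsLF.norm_delta (H : IsLF o δ) (x : M) : ‖δ x‖ = dist x o := by
  have := H.isom x o
  rwa [H.base, sub_zero] at this

lemma IsLF.exists_W (H : IsLF o δ) {R : ℝ} (hR : 0 < R) :
    ∃ W : F →L[ℂ] F, (∀ x, W (δ x) = ((chi o R x : ℝ) : ℂ) • δ x) ∧ ‖W‖ ≤ 3 := by
  refine H.lift (fun x => ((chi o R x : ℝ) : ℂ) • δ x) 3 (by norm_num) (by simp [H.base]) ?_
  have key : ∀ x y, dist y o ≤ dist x o →
      ‖((chi o R x : ℝ) : ℂ) • δ x - ((chi o R y : ℝ) : ℂ) • δ y‖ ≤ 3 * dist x y := by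
    intro x y hxy
    by_cases h2 : dist y o ≤ 2 * R
    · have e : ((chi o R x : ℝ) : ℂ) • δ x - ((chi o R y : ℝ) : ℂ) • δ y =
          ((chi o R x : ℝ) : ℂ) • (δ x - δ y) +
            ((chi o R x - chi o R y : ℝ) : ℂ) • δ y := by
        push_cast
        module
      rw [e]
      refine (norm_add_le _ _).trans ?_
      rw [norm_smul, norm_smul, Complex.norm_real, Complex.norm_real, Real.norm_eq_abs,
        Real.norm_eq_abs, H.isom, H.norm_delta, abs_of_nonneg (chi_nonneg x)]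
      have h3 := chi_lip (o := o) hR x y
      have h4 : |chi o R x - chi o R y| * dist y o ≤ dist x y / R * (2 * R) :=
        mul_le_mul h3 h2 dist_nonneg (by positivity)
      have h5 : dist x y / R * (2 * R) = 2 * dist x y := by field_simp
      have h6 : chi o R x * dist x y ≤ 1 * dist x y :=
        mul_le_mul_of_nonneg_right (chi_le_one x) dist_nonneg
      linarith
    · push Not at h2
      rw [chi_zero hR h2.le, chi_zero hR (h2.le.trans hxy)]
      simp
  intro x y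
  rcases le_total (dist y o) (dist x o) with h | h
  · exact key x y h
  · rw [norm_sub_rev, dist_comm x y]
    exact key y x h

/-- the cut-off operator -/
noncomputable def IsLF.W (H : IsLF o δ) (R : ℝ) : F →L[ℂ] F :=
  if h : 0 < R then (H.exists_W h).choose else 0

lemma IsLF.W_delta (H : IsLF o δ) {R : ℝ} (hR : 0 < R) (x : M) :
    H.W R (δ x) = ((chi o R x : ℝ) : ℂ) • δ x := by
  unfold IsLF.W
  rw [dif_pos hR]
  exact (H.exists_W hR).choose_spec.1 x

lemma IsLF.W_norm (H : IsLF o δ) {R : ℝ} (hR : 0 < R) : ‖H.W R‖ ≤ 3 := by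
  unfold IsLF.W
  rw [dif_pos hR]
  exact (H.exists_W hR).choose_spec.2

lemma IsLF.ext (H : IsLF o δ) {Y : Type*} [NormedAddCommGroup Y] [NormedSpace ℂ Y]
    {S T : F →L[ℂ] Y} (h : ∀ x, S (δ x) = T (δ x)) : S = T := by
  apply ContinuousLinearMap.ext_on H.dense
  rintro _ ⟨x, rfl⟩
  exact h x

lemma IsLF.W_tendsto (H : IsLF o δ) (v : F) {ε : ℝ} (hε : 0 < ε) :
    ∀ᶠ R in atTop, ‖v - H.W R v‖ ≤ ε := by
  have hspan : ∀ u ∈ Submodule.span ℂ (Set.range δ), ∀ᶠ R in atTop, H.W R u = u := by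
    intro u hu
    induction hu using Submodule.span_induction with
    | mem x hx =>
      obtain ⟨y, rfl⟩ := hx
      filter_upwards [eventually_ge_atTop (dist y o), eventually_gt_atTop 0] with R h1 h2
      rw [H.W_delta h2, chi_one h2 h1]
      simp
    | zero => simp
    | add x y _ _ hx hy =>
      filter_upwards [hx, hy] with R h1 h2
      rw [map_add, h1, h2]
    | smul a x _ hx =>
      filter_upwards [hx] with R h1
      rw [map_smul, h1]
  obtain ⟨u, hu, huv⟩ := Metric.dense_iff.1 H.dense v (ε / 4) (by linarith)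
  filter_upwards [hspan u huv, eventually_gt_atTop 0] with R h1 h2
  have e : v - H.W R v = (v - u) + H.W R (u - v) := by
    rw [map_sub, h1]
    abel
  rw [e]
  refine (norm_add_le _ _).trans ?_
  have h3 := (H.W R).le_opNorm (u - v)
  have h4 := H.W_norm h2
  rw [mem_ball, dist_eq_norm] at hu
  have h5 : ‖v - u‖ = ‖u - v‖ := norm_sub_rev _ _
  have h6 : ‖H.W R‖ * ‖u - v‖ ≤ 3 * ‖u - v‖ :=
    mul_le_mul_of_nonneg_right h4 (norm_nonneg _)
  linarith

lemma IsLF.QT (H : IsLF o δ) {T : F →L[ℂ] F} (hT : IsCompactOperator T) {ε : ℝ} (hε : 0 < ε) :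
    ∀ᶠ R in atTop, ∀ u, ‖T u - H.W R (T u)‖ ≤ ε * ‖u‖ := by
  obtain ⟨K, hK, hTK⟩ := hT.image_closedBall_subset_compact (f := (T : F →ₗ[ℂ] F)) 1
  obtain ⟨t, -, htf, htc⟩ := hK.finite_cover_balls (e := ε / 8) (by linarith)
  have h1 : ∀ᶠ R in atTop, ∀ v ∈ t, ‖v - H.W R v‖ ≤ ε / 2 :=
    (Filter.eventually_all_finite htf).2 fun v _ => H.W_tendsto v (by linarith)
  filter_upwards [h1, eventually_gt_atTop 0] with R h2 hR
  have key : ∀ u, ‖u‖ ≤ 1 → ‖T u - H.W R (T u)‖ ≤ ε := by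
    intro u hu
    have h3 : T u ∈ K := hTK ⟨u, by simpa using hu, rfl⟩
    obtain ⟨v, hv, hvu⟩ := Set.mem_iUnion₂.1 (htc h3)
    have e : T u - H.W R (T u) = (T u - v) + (v - H.W R v) + H.W R (v - T u) := by
      rw [map_sub]
      abel
    rw [e]
    refine (norm_add₃_le).trans ?_
    have h4 := (H.W R).le_opNorm (v - T u)
    have h5 := H.W_norm hR
    rw [mem_ball, dist_eq_norm] at hvu
    have h6 : ‖v - T u‖ = ‖T u - v‖ := norm_sub_rev _ _
    have h7 : ‖H.W R‖ * ‖v - T u‖ ≤ 3 * ‖v - T u‖ :=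
      mul_le_mul_of_nonneg_right h5 (norm_nonneg _)
    have := h2 v hv
    linarith
  intro u
  rcases eq_or_ne u 0 with rfl | hu
  · simp
  have hu' : 0 < ‖u‖ := norm_pos_iff.2 hu
  have h8 := key (((‖u‖⁻¹ : ℝ) : ℂ) • u) (by
    rw [norm_smul, Complex.norm_real, norm_inv, norm_norm, inv_mul_cancel₀ hu'.ne'])
  rw [map_smul, map_smul, ← smul_sub, norm_smul, Complex.norm_real, norm_inv, norm_norm,
    inv_mul_le_iff₀ hu'] at h8
  linarith

/-- radial flatness -/
lemma IsLF.radial (H : IsLF o δ) {T : F →L[ℂ] F} (hT : IsCompactOperator T) {f : M → M}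
    (hf : ∀ x, T (δ x) = δ (f x)) :
    ∀ᶠ R in atTop, ∀ x, dist x o ≤ 4 * R → dist (f x) o ≤ R := by
  obtain ⟨R', h1, h2⟩ := ((H.QT hT (ε := 1/4) (by norm_num)).and (eventually_gt_atTop 0)).exists
  filter_upwards [eventually_ge_atTop (2 * R')] with R hR x hx
  by_contra hcon
  push Not at hcon
  have h3 := h1 (δ x)
  rw [hf, H.W_delta h2, chi_zero h2 (by linarith), Complex.ofReal_zero, zero_smul, sub_zero,
    H.norm_delta, H.norm_delta] at h3
  linarith

/-- eigenvectors have bounded support -/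
lemma IsLF.eigen_bounded (H : IsLF o δ) {T : F →L[ℂ] F} (hT : IsCompactOperator T) {f : M → M}
    (hf : ∀ x, T (δ x) = δ (f x)) {l : ℂ} (hl : l ≠ 0) {g : F} (hg : T g = l • g) :
    ∀ᶠ R in atTop, H.W R g = g := by
  have hlp : 0 < ‖l‖ := norm_pos_iff.2 hl
  obtain ⟨R1, hR1⟩ := eventually_atTop.1
    (((H.QT hT (ε := ‖l‖ / 2) (by linarith)).and (eventually_gt_atTop 0)).and
      (H.radial hT hf))
  have hstep : ∀ R ≥ R1, ‖g - H.W R g‖ ≤ ‖g - H.W (2 * R) g‖ / 2 := by
    intro R hR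
    obtain ⟨⟨h1, h2⟩, h3⟩ := hR1 R hR
    have hcomp : (H.W R).comp (T.comp (H.W (2 * R))) = T.comp (H.W (2 * R)) := by
      apply H.ext
      intro x
      simp only [ContinuousLinearMap.comp_apply]
      rw [H.W_delta (by linarith : 0 < 2 * R), map_smul, map_smul, hf, H.W_delta h2]
      by_cases hx : dist x o ≤ 4 * R
      · rw [chi_one h2 (h3 x hx)]
        simp
      · push Not at hx
        rw [chi_zero (o := o) (by linarith : 0 < 2 * R) (by linarith : 2 * (2 * R) ≤ dist x o)]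
        simp
    have h4 := h1 (g - H.W (2 * R) g)
    have h5 : H.W R (T (H.W (2 * R) g)) = T (H.W (2 * R) g) := by
      have := congrArg (fun S : F →L[ℂ] F => S g) hcomp
      simpa using this
    rw [map_sub, map_sub, h5] at h4
    have e : T g - T (H.W (2 * R) g) - (H.W R (T g) - T (H.W (2 * R) g)) =
        l • (g - H.W R g) := by
      rw [hg, map_smul]
      module
    rw [e, norm_smul] at h4
    have h6 : ‖l‖ * ‖g - H.W R g‖ ≤ ‖l‖ * (‖g - H.W (2 * R) g‖ / 2) := by linarith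
    exact le_of_mul_le_mul_left h6 hlp
  have hiter : ∀ (k : ℕ) (R : ℝ), R ≥ R1 → 0 < R →
      ‖g - H.W R g‖ ≤ ‖g - H.W (2 ^ k * R) g‖ / 2 ^ k := by
    intro k
    induction k with
    | zero => intro R _ _; simp
    | succ k ih =>
      intro R hR hR0
      have h1 := ih R hR hR0
      have hp : (1:ℝ) ≤ 2 ^ k := one_le_pow₀ (by norm_num)
      have h2 := hstep (2 ^ k * R) (by nlinarith)
      have e : (2:ℝ) ^ (k + 1) * R = 2 * (2 ^ k * R) := by ring
      rw [e]
      refine h1.trans ?_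
      rw [pow_succ, mul_comm ((2:ℝ) ^ k) 2, ← div_div]
      exact div_le_div_of_nonneg_right h2 (by positivity)
  filter_upwards [eventually_ge_atTop R1, eventually_gt_atTop 0] with R hR hR0
  have hb : ∀ k : ℕ, ‖g - H.W R g‖ ≤ (4 * ‖g‖) * (1 / 2) ^ k := by
    intro k
    have h1 := hiter k R hR hR0
    have hpos : 0 < 2 ^ k * R := by positivity
    have h2 : ‖g - H.W (2 ^ k * R) g‖ ≤ 4 * ‖g‖ := by
      refine (norm_sub_le _ _).trans ?_
      have h3 := (H.W (2 ^ k * R)).le_opNorm g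
      have h4 := H.W_norm hpos
      have h5 : ‖H.W (2 ^ k * R)‖ * ‖g‖ ≤ 3 * ‖g‖ :=
        mul_le_mul_of_nonneg_right h4 (norm_nonneg _)
      linarith
    refine h1.trans ?_
    rw [one_div, inv_pow, ← div_eq_mul_inv]
    exact div_le_div_of_nonneg_right h2 (by positivity)
  have hlim : Tendsto (fun k : ℕ => (4 * ‖g‖) * (1 / 2) ^ k) atTop (𝓝 ((4 * ‖g‖) * 0)) :=
    (tendsto_pow_atTop_nhds_zero_of_lt_one (by norm_num) (by norm_num)).const_mul _
  rw [mul_zero] at hlim
  have h0 : ‖g - H.W R g‖ ≤ 0 := ge_of_tendsto' hlim hb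
  have h1 : g - H.W R g = 0 := norm_le_zero_iff.1 h0
  exact (sub_eq_zero.1 h1).symm

/-- uniform local flatness -/
lemma IsLF.flat (H : IsLF o δ) {T : F →L[ℂ] F} (hT : IsCompactOperator T) {f : M → M}
    (hf : ∀ x, T (δ x) = δ (f x)) {c : ℝ} (hc : 0 < c) :
    ∃ s : ℝ, 0 < s ∧ ∀ x y, dist x y < s → dist (f x) (f y) ≤ c * dist x y := by
  by_contra hcon
  push Not at hcon
  choose x y hxy hfxy using fun n : ℕ => hcon (1 / ((n : ℝ) + 1)) (by positivity)
  have hlip : ∀ a b, dist (f a) (f b) ≤ ‖T‖ * dist a b := by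
    intro a b
    rw [← H.isom, ← H.isom, ← hf, ← hf, ← map_sub]
    exact T.le_opNorm _
  have hd : ∀ n, 0 < dist (x n) (y n) := by
    intro n
    rw [dist_pos]
    intro h
    have := hfxy n
    rw [h] at this
    simp at this
  obtain ⟨K, hK, hTK⟩ := hT.image_closedBall_subset_compact (f := (T : F →ₗ[ℂ] F)) 1
  set m : ℕ → F := fun n => (((dist (x n) (y n))⁻¹ : ℝ) : ℂ) • (δ (f (x n)) - δ (f (y n)))
    with hm
  have hmK : ∀ n, m n ∈ K := by
    intro n
    apply hTK
    refine ⟨(((dist (x n) (y n))⁻¹ : ℝ) : ℂ) • (δ (x n) - δ (y n)), ?_, ?_⟩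
    · rw [mem_closedBall_zero_iff, norm_smul, Complex.norm_real, norm_inv, H.isom,
        Real.norm_eq_abs, abs_of_pos (hd n), inv_mul_cancel₀ (hd n).ne']
    · simp only [ContinuousLinearMap.coe_coe, map_smul, map_sub, hf, hm]
  obtain ⟨μ, -, ψ, hψ, hψμ⟩ := hK.tendsto_subseq hmK
  have hcau := hψμ.cauchySeq
  rw [Metric.cauchySeq_iff'] at hcau
  obtain ⟨N, hN⟩ := hcau (c / 2) (by linarith)
  -- pick k large
  have hsmall : Tendsto (fun k : ℕ => ‖T‖ * (1 / ((ψ k : ℝ) + 1))) atTop (𝓝 (‖T‖ * 0)) :=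
    ((tendsto_one_div_add_atTop_nhds_zero_nat).comp hψ.tendsto_atTop).const_mul _
  rw [mul_zero] at hsmall
  have hpos : 0 < (c / 2) * dist (x (ψ N)) (y (ψ N)) := by
    have := hd (ψ N)
    positivity
  obtain ⟨k, hk1, hk2⟩ := ((hsmall.eventually_lt_const hpos).and (eventually_ge_atTop N)).exists
  have hr : dist (f (x (ψ k))) (f (y (ψ k))) < (c / 2) * dist (x (ψ N)) (y (ψ N)) := by
    refine lt_of_le_of_lt ?_ hk1
    refine (hlip _ _).trans ?_
    exact mul_le_mul_of_nonneg_left (hxy _).le (norm_nonneg _)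
  set p := f (x (ψ k)) with hp
  set q := f (y (ψ k)) with hq
  set r := dist p q with hrdef
  have hr0 : 0 ≤ r := dist_nonneg
  -- bump function
  have hmaxlip : ∀ a b : ℝ, |max 0 a - max 0 b| ≤ |a - b| := by
    intro a b
    rcases le_total a 0 with ha | ha <;> rcases le_total b 0 with hb | hb <;>
    simp only [max_eq_left, max_eq_right, ha, hb] <;>
    rw [abs_le] <;> constructor <;> cases abs_cases (a - b) <;> linarith
  obtain ⟨φ, hφ1, hφ2⟩ := H.func
    (fun t => ((max 0 (r - dist t p) - max 0 (r - dist o p) : ℝ) : ℂ)) 1 zero_le_one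
    (by simp) (by
      intro a b
      rw [← Complex.ofReal_sub, Complex.norm_real, Real.norm_eq_abs, one_mul,
        sub_sub_sub_cancel_right]
      refine (hmaxlip _ _).trans ?_
      rw [sub_sub_sub_cancel_left, abs_sub_comm]
      exact abs_dist_sub_le a b p)
  have hφm : ∀ n, φ (m n) = (((dist (x n) (y n))⁻¹ *
      (max 0 (r - dist (f (x n)) p) - max 0 (r - dist (f (y n)) p)) : ℝ) : ℂ) := by
    intro n
    simp only [hm, map_smul, map_sub, hφ1, smul_eq_mul]
    push_cast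
    ring
  have h1 : φ (m (ψ k)) = (((dist (x (ψ k)) (y (ψ k)))⁻¹ * r : ℝ) : ℂ) := by
    rw [hφm]
    congr 2
    rw [← hp, ← hq, dist_self, sub_zero, max_eq_right hr0, dist_comm q p, ← hrdef, sub_self,
      max_self, sub_zero]
  have h2 : ‖φ (m (ψ N))‖ ≤ (dist (x (ψ N)) (y (ψ N)))⁻¹ * r := by
    rw [hφm, Complex.norm_real, Real.norm_eq_abs, abs_mul, abs_inv, abs_of_pos (hd _)]
    refine mul_le_mul_of_nonneg_left ?_ (by have := hd (ψ N); positivity)
    have ha : ∀ t, 0 ≤ max 0 (r - dist t p) ∧ max 0 (r - dist t p) ≤ r := fun t =>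
      ⟨le_max_left _ _, max_le hr0 (by linarith [dist_nonneg (x := t) (y := p)])⟩
    have h3 := ha (f (x (ψ N)))
    have h4 := ha (f (y (ψ N)))
    rw [abs_le]
    constructor <;> linarith [h3.1, h3.2, h4.1, h4.2]
  have h5 : ‖φ (m (ψ k)) - φ (m (ψ N))‖ < c / 2 := by
    rw [← map_sub]
    refine lt_of_le_of_lt (φ.le_opNorm _) ?_
    have h6 := hN k hk2
    rw [dist_eq_norm] at h6
    have h7 : ‖φ‖ * ‖m (ψ k) - m (ψ N)‖ ≤ 1 * ‖m (ψ k) - m (ψ N)‖ :=
      mul_le_mul_of_nonneg_right hφ2 (norm_nonneg _)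
    simp only [Function.comp] at h6
    linarith
  have h8 : c < ‖φ (m (ψ k))‖ := by
    rw [h1, Complex.norm_real, Real.norm_eq_abs, abs_of_nonneg
      (by have := hd (ψ k); positivity)]
    have := hfxy (ψ k)
    rw [inv_mul_eq_div, lt_div_iff₀ (hd _)]
    exact this
  have h9 : (dist (x (ψ N)) (y (ψ N)))⁻¹ * r < c / 2 := by
    rw [inv_mul_lt_iff₀ (hd _)]
    linarith
  have h10 := norm_sub_norm_le (φ (m (ψ k))) (φ (m (ψ N)))
  linarith

end Pool.Agent.R571.LFS
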